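import Pool.Agent.Helper74.HG.Goals

/-!
# HG: the goal `DINV` (change of coordinates in the functional equation)
-/

open MvPolynomial

namespace Pool.Agent.Helper50.HG.DINV

open Pool.Agent.Helper74.HG

variable {σ τ : Type}

/-- The base change of `φ`. -/
noncomputable def bc (φ : MvPolynomial σ ℤ →ₐ[ℤ] MvPolynomial τ ℤ) :
    MvPolynomial σ ℂ →ₐ[ℂ] MvPolynomial τ ℂ := aeval fun i => toC (φ (X i))

theorem toC_X (i : σ) : toC (X i : MvPolynomial σ ℤ) = X i := by
  unfold toC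
  rw [map_X]

theorem bc_toC (φ : MvPolynomial σ ℤ →ₐ[ℤ] MvPolynomial τ ℤ) (p : MvPolynomial σ ℤ) :
    bc φ (toC p) = toC (φ p) := by
  have h : ((bc φ : MvPolynomial σ ℂ →ₐ[ℂ] MvPolynomial τ ℂ) : MvPolynomial σ ℂ →+* MvPolynomial τ ℂ).comp
      (map (Int.castRingHom ℂ)) =
      (map (Int.castRingHom ℂ) : MvPolynomial τ ℤ →+* MvPolynomial τ ℂ).comp
        (φ : MvPolynomial σ ℤ →+* MvPolynomial τ ℤ) := by
    apply MvPolynomial.ringHom_ext'
    · exact RingHom.ext_int _ _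
    · intro i
      simp only [RingHom.comp_apply, map_X]
      show bc φ (X i) = map (Int.castRingHom ℂ) (φ (X i))
      unfold bc
      rw [aeval_X]
      rfl
  exact RingHom.congr_fun h p

theorem bc_comp {ρ : Type} (φ : MvPolynomial σ ℤ →ₐ[ℤ] MvPolynomial τ ℤ)
    (ψ : MvPolynomial τ ℤ →ₐ[ℤ] MvPolynomial ρ ℤ) : (bc ψ).comp (bc φ) = bc (ψ.comp φ) := by
  apply MvPolynomial.algHom_ext
  intro i
  rw [AlgHom.comp_apply]
  have h1 : bc φ (X i) = toC (φ (X i)) := by
    unfold bc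
    rw [aeval_X]
  rw [h1, bc_toC]
  unfold bc
  rw [aeval_X, AlgHom.comp_apply]

theorem bc_id : bc (AlgHom.id ℤ (MvPolynomial σ ℤ)) = AlgHom.id ℂ (MvPolynomial σ ℂ) := by
  apply MvPolynomial.algHom_ext
  intro i
  unfold bc
  rw [aeval_X, AlgHom.id_apply, toC_X, AlgHom.id_apply]

/-- The base change as an isomorphism. -/
noncomputable def be (φ : MvPolynomial σ ℤ ≃ₐ[ℤ] MvPolynomial τ ℤ) :
    MvPolynomial σ ℂ ≃ₐ[ℂ] MvPolynomial τ ℂ :=
  AlgEquiv.ofAlgHom (bc (φ : MvPolynomial σ ℤ →ₐ[ℤ] MvPolynomial τ ℤ))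
    (bc (φ.symm : MvPolynomial τ ℤ →ₐ[ℤ] MvPolynomial σ ℤ))
    (by rw [bc_comp, AlgEquiv.comp_symm, bc_id]) (by rw [bc_comp, AlgEquiv.symm_comp, bc_id])

theorem be_toC (φ : MvPolynomial σ ℤ ≃ₐ[ℤ] MvPolynomial τ ℤ) (p : MvPolynomial σ ℤ) :
    be φ (toC p) = toC (φ p) := bc_toC _ p

/-- Conjugation. -/
noncomputable def cj (e : MvPolynomial σ ℂ ≃ₐ[ℂ] MvPolynomial τ ℂ) :
    (ℂ → Module.End ℂ (MvPolynomial σ ℂ)) →ₐ[ℂ] (ℂ → Module.End ℂ (MvPolynomial τ ℂ)) :=
  AlgHom.compLeft ((e.toLinearEquiv.conjAlgEquiv ℂ : Module.End ℂ (MvPolynomial σ ℂ) ≃ₐ[ℂ]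
    Module.End ℂ (MvPolynomial τ ℂ)) : Module.End ℂ (MvPolynomial σ ℂ) →ₐ[ℂ]
    Module.End ℂ (MvPolynomial τ ℂ)) ℂ

theorem cj_apply (e : MvPolynomial σ ℂ ≃ₐ[ℂ] MvPolynomial τ ℂ)
    (P : ℂ → Module.End ℂ (MvPolynomial σ ℂ)) (s : ℂ) (g : MvPolynomial τ ℂ) :
    cj e P s g = e (P s (e.symm g)) := rfl

theorem mul_mem_DS (p : MvPolynomial τ ℂ) :
    (fun _ : ℂ => LinearMap.mulLeft ℂ p) ∈ DS τ := by
  induction p using MvPolynomial.induction_on with
  | C a =>
    have h : (fun _ : ℂ => LinearMap.mulLeft ℂ (C a : MvPolynomial τ ℂ)) =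
        algebraMap ℂ (ℂ → Module.End ℂ (MvPolynomial τ ℂ)) a := by
      funext s
      refine LinearMap.ext fun g => ?_
      simp only [LinearMap.mulLeft_apply, Pi.algebraMap_apply, Module.algebraMap_end_apply]
      rw [C_mul']
    rw [h]
    exact Subalgebra.algebraMap_mem _ a
  | add p q hp hq =>
    have h : (fun _ : ℂ => LinearMap.mulLeft ℂ (p + q)) =
        (fun _ : ℂ => LinearMap.mulLeft ℂ p) + fun _ : ℂ => LinearMap.mulLeft ℂ q := by
      funext s
      refine LinearMap.ext fun g => ?_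
      simp only [LinearMap.mulLeft_apply, Pi.add_apply, LinearMap.add_apply, add_mul]
    rw [h]
    exact Subalgebra.add_mem _ hp hq
  | mul_X p i hp =>
    have h : (fun _ : ℂ => LinearMap.mulLeft ℂ (p * X i)) =
        (fun _ : ℂ => LinearMap.mulLeft ℂ p) * fun _ : ℂ => LinearMap.mulLeft ℂ (X i) := by
      funext s
      refine LinearMap.ext fun g => ?_
      simp only [LinearMap.mulLeft_apply, Pi.mul_apply, Module.End.mul_apply, mul_assoc]
    rw [h]
    exact Subalgebra.mul_mem _ hp (Algebra.subset_adjoin (Or.inl (Or.inl ⟨i, rfl⟩)))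

/-- The conjugate of `∂_i` as a derivation. -/
noncomputable def dv (e : MvPolynomial σ ℂ ≃ₐ[ℂ] MvPolynomial τ ℂ) (i : σ) :
    Derivation ℂ (MvPolynomial τ ℂ) (MvPolynomial τ ℂ) :=
  Derivation.mk' ((e.toLinearEquiv : MvPolynomial σ ℂ →ₗ[ℂ] MvPolynomial τ ℂ) ∘ₗ
    ((pderiv i : Derivation ℂ (MvPolynomial σ ℂ) (MvPolynomial σ ℂ)) :
      MvPolynomial σ ℂ →ₗ[ℂ] MvPolynomial σ ℂ) ∘ₗ
    (e.symm.toLinearEquiv : MvPolynomial τ ℂ →ₗ[ℂ] MvPolynomial σ ℂ)) (by
      intro a b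
      show e (pderiv i (e.symm (a * b))) = a • e (pderiv i (e.symm b)) + b • e (pderiv i (e.symm a))
      rw [map_mul, Derivation.leibniz]
      simp only [smul_eq_mul, map_add, map_mul, AlgEquiv.apply_symm_apply])

theorem dv_apply (e : MvPolynomial σ ℂ ≃ₐ[ℂ] MvPolynomial τ ℂ) (i : σ) (g : MvPolynomial τ ℂ) :
    dv e i g = e (pderiv i (e.symm g)) := rfl

theorem dsum {κ : Type} (s : Finset κ)
    (D : κ → Derivation ℂ (MvPolynomial τ ℂ) (MvPolynomial τ ℂ)) (g : MvPolynomial τ ℂ) :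
    (∑ j ∈ s, D j) g = ∑ j ∈ s, D j g := by
  classical
  induction s using Finset.induction_on with
  | empty => simp
  | insert a s ha ih => rw [Finset.sum_insert ha, Finset.sum_insert ha, Derivation.add_apply, ih]

theorem dv_eq [Fintype τ] (e : MvPolynomial σ ℂ ≃ₐ[ℂ] MvPolynomial τ ℂ) (i : σ)
    (g : MvPolynomial τ ℂ) : dv e i g = ∑ j, dv e i (X j) * pderiv j g := by
  classical
  have h : dv e i = ∑ j : τ, dv e i (X j) • (pderiv j : Derivation ℂ (MvPolynomial τ ℂ) _) := by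
    apply MvPolynomial.derivation_ext
    intro k
    rw [dsum]
    simp only [Derivation.smul_apply, smul_eq_mul, pderiv_X]
    rw [Finset.sum_eq_single k]
    · rw [Pi.single_eq_same, mul_one]
    · intro j _ hj
      rw [Pi.single_eq_of_ne (Ne.symm hj), mul_zero]
    · intro hk
      exact absurd (Finset.mem_univ _) hk
  have h2 : dv e i g = (∑ j : τ, dv e i (X j) •
      (pderiv j : Derivation ℂ (MvPolynomial τ ℂ) (MvPolynomial τ ℂ))) g :=
    congrArg (fun D : Derivation ℂ (MvPolynomial τ ℂ) (MvPolynomial τ ℂ) => D g) h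
  rw [h2, dsum]
  rfl

theorem cj_mem [Fintype τ] (e : MvPolynomial σ ℂ ≃ₐ[ℂ] MvPolynomial τ ℂ)
    {P : ℂ → Module.End ℂ (MvPolynomial σ ℂ)} (hP : P ∈ DS σ) : cj e P ∈ DS τ := by
  have h1 : (DS σ).map (cj e) ≤ DS τ := by
    unfold DS
    rw [AlgHom.map_adjoin]
    refine Algebra.adjoin_le ?_
    rintro _ ⟨Q, hQ, rfl⟩
    rcases hQ with (⟨i, rfl⟩ | ⟨i, rfl⟩) | hQ
    · have h : cj e (fun _ : ℂ => LinearMap.mulLeft ℂ (X i : MvPolynomial σ ℂ)) =
          fun _ : ℂ => LinearMap.mulLeft ℂ (e (X i)) := by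
        funext s
        refine LinearMap.ext fun g => ?_
        rw [cj_apply, LinearMap.mulLeft_apply, map_mul, AlgEquiv.apply_symm_apply,
          LinearMap.mulLeft_apply]
      rw [h]
      exact mul_mem_DS _
    · have h : cj e (fun _ : ℂ => ((pderiv i : Derivation ℂ (MvPolynomial σ ℂ)
            (MvPolynomial σ ℂ)) : MvPolynomial σ ℂ →ₗ[ℂ] MvPolynomial σ ℂ)) =
          ∑ j : τ, (fun _ : ℂ => LinearMap.mulLeft ℂ (dv e i (X j))) *
            fun _ : ℂ => ((pderiv j : Derivation ℂ (MvPolynomial τ ℂ) (MvPolynomial τ ℂ)) :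
              MvPolynomial τ ℂ →ₗ[ℂ] MvPolynomial τ ℂ) := by
        funext s
        refine LinearMap.ext fun g => ?_
        rw [Finset.sum_apply, LinearMap.sum_apply]
        have h2 := dv_eq e i g
        rw [dv_apply] at h2
        exact h2
      rw [h]
      refine Subalgebra.sum_mem _ fun j _ => Subalgebra.mul_mem _ (mul_mem_DS _) ?_
      exact Algebra.subset_adjoin (Or.inl (Or.inr ⟨j, rfl⟩))
    · rw [Set.mem_singleton_iff] at hQ
      subst hQ
      have h : cj e (fun s : ℂ => s • (1 : Module.End ℂ (MvPolynomial σ ℂ))) =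
          fun s : ℂ => s • (1 : Module.End ℂ (MvPolynomial τ ℂ)) := by
        funext s
        refine LinearMap.ext fun g => ?_
        rw [cj_apply, LinearMap.smul_apply, Module.End.one_apply, map_smul,
          AlgEquiv.apply_symm_apply, LinearMap.smul_apply, Module.End.one_apply]
      rw [h]
      exact Algebra.subset_adjoin (Or.inr rfl)
  exact h1 ⟨P, hP, rfl⟩

theorem t : Pool.Agent.Helper74.HG.DINV := by
  intro σ τ _ _ φ hφ f b hb
  obtain ⟨P, hP, h, hh, hPN⟩ := hb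
  have hc : ∀ g : MvPolynomial σ ℂ, constantCoeff (be φ g) = constantCoeff g := by
    intro g
    have h1 : (constantCoeff : MvPolynomial τ ℂ →+* ℂ).comp
        ((be φ : MvPolynomial σ ℂ ≃ₐ[ℂ] MvPolynomial τ ℂ) : MvPolynomial σ ℂ →+* MvPolynomial τ ℂ) =
        (constantCoeff : MvPolynomial σ ℂ →+* ℂ) := by
      apply MvPolynomial.ringHom_ext
      · intro r
        rw [RingHom.comp_apply]
        show constantCoeff (be φ (C r)) = constantCoeff (C r)
        have h2 : be φ (C r) = C r := (be φ).commutes r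
        rw [h2, constantCoeff_C, constantCoeff_C]
      · intro i
        rw [RingHom.comp_apply]
        show constantCoeff (be φ (X i)) = constantCoeff (X i)
        rw [constantCoeff_X, ← toC_X i, be_toC]
        unfold toC
        rw [constantCoeff_map, hφ i, map_zero]
    exact RingHom.congr_fun h1 g
  refine ⟨cj (be φ) P, cj_mem _ hP, be φ h, by rwa [hc], fun N => ?_⟩
  have h1 : (be φ).symm (toC (φ f)) = toC f := by
    rw [← be_toC, AlgEquiv.symm_apply_apply]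
  rw [cj_apply, map_pow, h1, hPN N, map_mul, map_mul, map_pow, be_toC]
  have h2 : be φ (C (b.eval (N : ℂ))) = C (b.eval (N : ℂ)) := (be φ).commutes _
  rw [h2]

end Pool.Agent.Helper50.HG.DINV
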